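import Pool.Agent.H2.KL2

namespace Pool.Agent.Results.MP_fe322e_ag.NotGroebner

open Pool.Agent.H2.KL

theorem result (k : Type) [Field k] : ∃ (u v : Equiv.Perm (Fin 5))
    (m : MonomialOrder.{0, 0} (Fin 5 × Fin 5)), Bruhat u v ∧ Graded m ∧ Diagonal k m ∧
      ¬ IsGB m (dets k u v) :=
  ⟨uu, vv, ord, bruhat, ord_graded, ord_diag, not_GB⟩

end Pool.Agent.Results.MP_fe322e_ag.NotGroebner
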